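import Pool.Agent.U722.FF.Stm
import Pool.Agent.N24.TR.Tree

/-!
# Project FF, package EX: the exact sequence `0 → ℤE → ℤV → ℤ → 0` of a tree
-/

set_option autoImplicit false

namespace Pool.Agent.U928.FFP

open U722.FF MulAction
open Pool.Agent.N24.TR (gam gam_mul gam_adj)

theorem t_EX : S_EX := by
  intro G V E _ _ _ T s t hT hO
  classical
  let f : PM G E →ₗ[MonoidAlgebra ℤ G] PM G V := PMlift (fun e => pt G (t e) - pt G (s e)) (by
    intro g e
    rw [smul_sub, of_smul_pt, of_smul_pt, hO.s_act, hO.t_act])
  let q : PM G V →ₗ[MonoidAlgebra ℤ G] PM G PUnit.{1} := PMlift (fun _ => pt G PUnit.unit) (by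
    intro g v
    rw [of_smul_pt])
  have hf : ∀ e, f (pt G e) = pt G (t e) - pt G (s e) := fun e => PMlift_pt _ _ e
  have hq : ∀ v, q (pt G v) = pt G PUnit.unit := fun v => PMlift_pt _ _ v
  obtain ⟨o⟩ := hT.connected.nonempty
  refine ⟨f, q, ?_, ?_, ?_⟩
  · -- injectivity
    let ee : V → V → Multiplicative (PM G E) := fun u v =>
      if h : ∃ e, s e = u ∧ t e = v then Multiplicative.ofAdd (pt G h.choose)
      else if h : ∃ e, s e = v ∧ t e = u then Multiplicative.ofAdd (-(pt G h.choose)) else 1
    have hA : ∀ e, ee (s e) (t e) = Multiplicative.ofAdd (pt G e) := by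
      intro e
      have h : ∃ e', s e' = s e ∧ t e' = t e := ⟨e, rfl, rfl⟩
      have h1 : h.choose = e := hO.inj _ _ h.choose_spec.1 h.choose_spec.2
      simp only [ee]
      rw [dif_pos h, h1]
    have hB : ∀ e, ee (t e) (s e) = Multiplicative.ofAdd (-(pt G e)) := by
      intro e
      have h0 : ¬ ∃ e', s e' = t e ∧ t e' = s e := by
        rintro ⟨e', h2, h3⟩
        exact hO.one e' e h2 h3
      have h : ∃ e', s e' = s e ∧ t e' = t e := ⟨e, rfl, rfl⟩
      have h1 : h.choose = e := hO.inj _ _ h.choose_spec.1 h.choose_spec.2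
      simp only [ee]
      rw [dif_neg h0, dif_pos h, h1]
    have hee : ∀ u v, T.Adj u v → ee u v * ee v u = 1 := by
      intro u v huv
      obtain ⟨e, ⟨rfl, rfl⟩ | ⟨rfl, rfl⟩⟩ := hO.all u v huv
      · rw [hA, hB, ← ofAdd_add, add_neg_cancel, ofAdd_zero]
      · rw [hA, hB, ← ofAdd_add, neg_add_cancel, ofAdd_zero]
    let k : PM G V →+ PM G E := PMadd G (fun v => Multiplicative.toAdd (gam hT ee o v))
    have hk : ∀ v, k (pt G v) = Multiplicative.toAdd (gam hT ee o v) := fun v => PMadd_pt _ v
    have hkf : ∀ m, k (f m) = m := by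
      intro m
      induction m using PM_induction with
      | h0 => rw [map_zero, map_zero]
      | h1 e =>
        rw [hf, map_sub, hk, hk, ← gam_mul hT ee hee o (s e) (t e), toAdd_mul,
          gam_adj hT ee hee (hO.adj e), hA, toAdd_ofAdd, add_sub_cancel_left]
      | h2 a b ha hb => rw [map_add, map_add, ha, hb]
      | h3 a ha => rw [map_neg, map_neg, ha]
    intro a b hab
    rw [← hkf a, ← hkf b, hab]
  · -- surjectivity
    intro y
    induction y using PM_induction with
    | h0 => exact ⟨0, map_zero _⟩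
    | h1 x => exact ⟨pt G o, hq o⟩
    | h2 a b ha hb =>
      obtain ⟨a', ha'⟩ := ha
      obtain ⟨b', hb'⟩ := hb
      exact ⟨a' + b', by rw [map_add, ha', hb']⟩
    | h3 a ha =>
      obtain ⟨a', ha'⟩ := ha
      exact ⟨-a', by rw [map_neg, ha']⟩
  · -- exactness
    have hwalk : ∀ {u v : V} (_ : T.Walk u v), pt G v - pt G u ∈ LinearMap.range f := by
      intro u v p
      induction p with
      | nil => rw [sub_self]; exact Submodule.zero_mem _
      | @cons u v w h p ih =>
        have h1 : pt G v - pt G u ∈ LinearMap.range f := by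
          obtain ⟨e, ⟨rfl, rfl⟩ | ⟨rfl, rfl⟩⟩ := hO.all u v h
          · exact ⟨pt G e, hf e⟩
          · exact ⟨-(pt G e), by rw [map_neg, hf, neg_sub]⟩
        have h2 : pt G w - pt G u = (pt G w - pt G v) + (pt G v - pt G u) := by abel
        rw [h2]
        exact Submodule.add_mem _ ih h1
    have key : ∀ b : PM G V, ∃ z : ℤ, b - z • pt G o ∈ LinearMap.range f ∧
        q b = z • pt G PUnit.unit := by
      intro b
      induction b using PM_induction with
      | h0 => exact ⟨0, by rw [zero_smul, sub_zero]; exact Submodule.zero_mem _, by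
          rw [map_zero, zero_smul]⟩
      | h1 v =>
        refine ⟨1, ?_, ?_⟩
        · rw [one_smul]
          exact hwalk (hT.connected.preconnected o v).some
        · rw [hq, one_smul]
      | h2 a b ha hb =>
        obtain ⟨z, h1, h2⟩ := ha
        obtain ⟨w, h3, h4⟩ := hb
        refine ⟨z + w, ?_, ?_⟩
        · have h5 : a + b - (z + w) • pt G o = (a - z • pt G o) + (b - w • pt G o) := by
            rw [add_smul]; abel
          rw [h5]
          exact Submodule.add_mem _ h1 h3
        · rw [map_add, h2, h4, add_smul]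
      | h3 a ha =>
        obtain ⟨z, h1, h2⟩ := ha
        refine ⟨-z, ?_, ?_⟩
        · have h5 : -a - (-z) • pt G o = -(a - z • pt G o) := by
            rw [neg_smul]; abel
          rw [h5]
          exact Submodule.neg_mem _ h1
        · rw [map_neg, h2, neg_smul]
    intro b
    constructor
    · intro hb
      obtain ⟨z, h1, h2⟩ := key b
      rw [hb] at h2
      have h3 : z = 0 := by
        have h4 : (0 : PUnit.{1} →₀ ℤ) PUnit.unit =
            (z • (Finsupp.single PUnit.unit 1 : PUnit.{1} →₀ ℤ)) PUnit.unit :=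
          congrArg (fun m : PUnit.{1} →₀ ℤ => m PUnit.unit) h2
        simpa using h4.symm
      rw [h3, zero_smul, sub_zero] at h1
      exact h1
    · rintro ⟨a, rfl⟩
      induction a using PM_induction with
      | h0 => rw [map_zero, map_zero]
      | h1 e => rw [hf, map_sub, hq, hq, sub_self]
      | h2 a b ha hb => rw [map_add, map_add, ha, hb, add_zero]
      | h3 a ha => rw [map_neg, map_neg, ha, neg_zero]

end Pool.Agent.U928.FFP
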